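import Pool.Agent.V113.SRI.Main

/-!
# MP_cd9307_al: if a semiring `S` is finitely based then so is `S^∞`
-/

set_option autoImplicit false

open Pool.Agent.V113.SRI

namespace Pool.Agent.Results.MP_cd9307_al.ExtFinitelyBased

universe u

theorem result (S : Type u) [Nonempty S] [Add S] [Mul S] (hS : IsSR S)
    (h : FinitelyBased S) : FinitelyBased (Ext S) :=
  finitelyBased_ext hS h

end Pool.Agent.Results.MP_cd9307_al.ExtFinitelyBased
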